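import Pool.Agent.W170.Z3.Stm
import Pool.Agent.H387R3.ZF.B2

/-!
# `B3`: archimedean bound of the linear form by the values on the line
-/

set_option autoImplicit false

open Polynomial Pool.Agent.H337R2

namespace Pool.Agent.W976.Z3

open Pool.Agent.W170.Z3

noncomputable section

namespace B3x

lemma aevalC (a : ℚ) (z : ℂ) : aeval z (C a : ℚ[X]) = ((a : ℝ) : ℂ) := by
  rw [aeval_C]; simp

lemma aeval_fac (j : ℕ) (z : ℂ) : aeval z (X + C (j : ℚ) : ℚ[X]) = z + (j : ℂ) := by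
  rw [map_add, aeval_X, aevalC]; simp

lemma PF_norm (n : ℕ) (z : ℂ) : ‖aeval z (PF n)‖ =
    (((7 * n).factorial : ℕ) : ℝ) ^ 2 / ((((4 * n).factorial : ℕ) : ℝ) *
      (((6 * n).factorial : ℕ) : ℝ)) *
    ((∏ m ∈ Finset.Icc 1 (4 * n), ‖z + (m : ℂ)‖) * ∏ m ∈ Finset.Icc 1 (6 * n), ‖z + (m : ℂ)‖) := by
  unfold PF
  rw [map_mul, aevalC, norm_mul, Complex.norm_real, map_mul, map_prod, map_prod, norm_mul,
    norm_prod, norm_prod]
  congr 1
  · unfold cF
    push_cast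
    rw [Real.norm_of_nonneg (by positivity)]
  · congr 1
    · apply Finset.prod_congr rfl
      intro j _
      rw [aeval_fac]
    · apply Finset.prod_congr rfl
      intro j _
      rw [aeval_fac]

lemma QQ_aeval (s : Finset ℕ) (z : ℂ) : aeval z (QQ s mF) = ∏ k ∈ s, (z + (k : ℂ)) ^ 2 := by
  unfold QQ
  rw [map_prod]
  apply Finset.prod_congr rfl
  intro j _
  rw [map_pow, aeval_fac]

lemma Rn_norm (n : ℕ) (y : ℝ) : ‖Rn n y‖ = NG n y := by
  unfold Rn NG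
  rw [norm_div, PF_norm, QQ_aeval, norm_prod]
  congr 1
  apply Finset.prod_congr rfl
  intro j _
  rw [norm_pow]

lemma QQ_shift (n : ℕ) (y : ℝ) :
    aeval (zl y) (QQ (Finset.Icc (4 * n + 1) (11 * n)) mF) = aeval (zn n y) (QQ (sF n) mF) := by
  rw [QQ_aeval, QQ_aeval]
  have h : sF n = (Finset.Icc (4 * n + 1) (11 * n)).map (addRightEmbedding n) := by
    rw [Finset.map_add_right_Icc]
    have a1 : 4 * n + 1 + n = 5 * n + 1 := by ring
    have a2 : 11 * n + n = 12 * n := by ring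
    rw [a1, a2]
  rw [h, Finset.prod_map]
  apply Finset.prod_congr rfl
  intro j _
  unfold zn
  rw [addRightEmbedding_apply]
  push_cast
  ring

lemma P_shift (n : ℕ) (y : ℝ) (P : ℚ[X]) :
    aeval (zl y) (P.comp (X - C (n : ℚ))) = aeval (zn n y) P := by
  rw [aeval_comp, map_sub, aeval_X, aevalC]
  unfold zn
  simp

lemma PF_deg (n : ℕ) : (PF n).natDegree ≤ 10 * n := by
  unfold PF
  refine Polynomial.natDegree_mul_le.trans ?_
  rw [Polynomial.natDegree_C, zero_add]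
  refine Polynomial.natDegree_mul_le.trans ?_
  have h : ∀ m : ℕ, (∏ j ∈ Finset.Icc 1 m, (X + C (j : ℚ))).natDegree ≤ m := by
    intro m
    refine (Polynomial.natDegree_prod_le _ _).trans ?_
    calc ∑ j ∈ Finset.Icc 1 m, (X + C (j : ℚ)).natDegree = ∑ _j ∈ Finset.Icc 1 m, 1 := by
          apply Finset.sum_congr rfl
          intro j _
          rw [Polynomial.natDegree_X_add_C]
      _ ≤ m := by simp
  have h1 := h (4 * n)
  have h2 := h (6 * n)
  omega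

lemma QQ_deg (n : ℕ) : (QQ (Finset.Icc (4 * n + 1) (11 * n)) mF).natDegree = 14 * n := by
  rw [QQ_natDegree]
  have : ∀ k ∈ Finset.Icc (4 * n + 1) (11 * n), mF k = 2 := fun k _ => rfl
  rw [Finset.sum_congr rfl this, Finset.sum_const, Nat.card_Icc, smul_eq_mul]
  omega

end B3x

open B3x

theorem B3_of (h1 : StB1) (h2 : StR1) : StB3 := by
  obtain ⟨C2, hC2, hK2⟩ := KK_exp (b := 2) (by norm_num)
  refine ⟨C2, hC2, fun n hn x Q hQ B hB => ?_⟩
  obtain ⟨F, hF, hNL⟩ := h1 hn x Q hQ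
  have hdeg : ((PF n * Q).comp (X - C (n : ℚ))).natDegree + 2 ≤
      (QQ (Finset.Icc (4 * n + 1) (11 * n)) mF).natDegree := by
    rw [QQ_deg, natDegree_comp, natDegree_X_sub_C, mul_one]
    have e1 : (PF n * Q).natDegree ≤ 10 * n + (4 * n - 2) :=
      Polynomial.natDegree_mul_le.trans (add_le_add (PF_deg n) hQ)
    omega
  have hd : ((PF n * Q).comp (X - C (n : ℚ))).degree <
      (QQ (Finset.Icc (4 * n + 1) (11 * n)) mF).degree :=
    Polynomial.degree_lt_degree (by omega)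
  have hs : ∀ k ∈ Finset.Icc (4 * n + 1) (11 * n), 1 ≤ k := by
    intro k hk
    rw [Finset.mem_Icc] at hk
    omega
  have hB' : ∀ y : ℝ, ‖Rc (Finset.Icc (4 * n + 1) (11 * n)) mF
      ((PF n * Q).comp (X - C (n : ℚ))) y‖ * Real.exp (-(2 * Real.pi * |y|)) ≤
      B * (1 + y ^ 2)⁻¹ := by
    intro y
    refine le_trans (le_of_eq ?_) (hB y)
    rw [Rc_eq _ _ _ hd y, P_shift, QQ_shift, ← Rn_norm, map_mul]
    unfold Rn
    rw [norm_div, norm_div, norm_mul]
    ring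
  have e1 : |F| ≤ C2 * B :=
    Pool.Agent.ZF.B2_kernel2 _ mF _ hdeg hs F hF B hB' C2 hC2.le hK2
  have e2 : |((rho n (PF n * Q) : ℚ) : ℝ)| ≤ ∑ k ∈ Finset.Icc (6 * n + 1) (12 * n),
      ((RK n k : ℚ) : ℝ) * |((Q.eval (-(k : ℚ)) : ℚ) : ℝ)| := by
    have e3 := h2 hn Q
    have e4 : ((|rho n (PF n * Q)| : ℚ) : ℝ) ≤ ((∑ k ∈ Finset.Icc (6 * n + 1) (12 * n),
      RK n k * |Q.eval (-(k : ℚ))| : ℚ) : ℝ) := by exact_mod_cast e3
    rw [Rat.cast_abs, Rat.cast_sum] at e4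
    refine e4.trans (le_of_eq ?_)
    apply Finset.sum_congr rfl
    intro k _
    rw [Rat.cast_mul, Rat.cast_abs]
  rw [hNL]
  calc |-F + 2 * ((x : ℝ) - zr 3) * ((rho n (PF n * Q) : ℚ) : ℝ)| ≤
      |-F| + |2 * ((x : ℝ) - zr 3) * ((rho n (PF n * Q) : ℚ) : ℝ)| := abs_add_le _ _
    _ = |F| + 2 * |(x : ℝ) - zr 3| * |((rho n (PF n * Q) : ℚ) : ℝ)| := by
        rw [abs_neg, abs_mul, abs_mul, abs_two]
    _ ≤ _ := add_le_add e1 (mul_le_mul_of_nonneg_left e2 (by positivity))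

end

end Pool.Agent.W976.Z3
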